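import Pool.Agent.H.MP_ab5103_an.A

set_option autoImplicit false
open scoped Classical

namespace Pool.Agent.Results.MP_ab5103_an.No

/-- complex Hilbert space of square summable functions -/
noncomputable abbrev L2 (X : Type) : Type := lp (fun _ : X => ℂ) 2

/-- uniformly locally finite -/
def ULF (X : Type) [MetricSpace X] : Prop :=
  ∀ r : ℝ, 0 < r → ∃ N : ℕ, ∀ x : X, (Metric.closedBall x r).encard ≤ (N : ℕ∞)

/-- uniform Roe algebra: norm closure of the finite propagation operators -/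
def Roe (X : Type) [MetricSpace X] : Set (L2 X →L[ℂ] L2 X) :=
  closure {a : L2 X →L[ℂ] L2 X | ∃ r : ℝ, ∀ x x' : X, r < dist x x' →
    a (lp.single 2 x' (1 : ℂ)) x = 0}

/-- property A -/
def PropA (Y : Type) [MetricSpace Y] : Prop :=
  ∀ R ε : ℝ, 0 < R → 0 < ε → ∃ S : ℝ, 0 < S ∧ ∃ ξ : Y → lp (fun _ : Y => ℝ) 1,
    (∀ x w, 0 ≤ ξ x w) ∧ (∀ x, ‖ξ x‖ = 1) ∧ (∀ x w, ξ x w ≠ 0 → dist x w ≤ S) ∧
    ∀ x y, dist x y ≤ R → ‖ξ x - ξ y‖ ≤ ε

section
variable {H K : Type} [NormedAddCommGroup H] [InnerProductSpace ℂ H] [CompleteSpace H]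
  [NormedAddCommGroup K] [InnerProductSpace ℂ K] [CompleteSpace K]

/-- injective star homomorphism from `A` into `B` -/
def Emb (A : Set (H →L[ℂ] H)) (B : Set (K →L[ℂ] K)) (Φ : (H →L[ℂ] H) → (K →L[ℂ] K)) : Prop :=
  Set.MapsTo Φ A B ∧ Set.InjOn Φ A ∧ ∀ a ∈ A, ∀ b ∈ A, ∀ c : ℂ,
    Φ (a + b) = Φ a + Φ b ∧ Φ (c • a) = c • Φ a ∧ Φ (a * b) = Φ a * Φ b ∧
      Φ (star a) = star (Φ a)

/-- rank one projection -/
def RankOneProj (q : H →L[ℂ] H) : Prop :=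
  IsStarProjection q ∧ Module.finrank ℂ (LinearMap.range (q : H →ₗ[ℂ] H)) = 1

/-- rank preserving on `A` -/
def RankPres (A : Set (H →L[ℂ] H)) (Ψ : (H →L[ℂ] H) → (K →L[ℂ] K)) : Prop :=
  ∀ q ∈ A, RankOneProj q → RankOneProj (Ψ q)

/-- compact preserving on `A` -/
def CompactPres (A : Set (H →L[ℂ] H)) (Ψ : (H →L[ℂ] H) → (K →L[ℂ] K)) : Prop :=
  ∀ a ∈ A, IsCompactOperator a → IsCompactOperator (Ψ a)

/-- projection of `B` commuting with the image of `A` -/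
def CommProj (A : Set (H →L[ℂ] H)) (B : Set (K →L[ℂ] K)) (Φ : (H →L[ℂ] H) → (K →L[ℂ] K))
    (p : K →L[ℂ] K) : Prop :=
  p ∈ B ∧ IsStarProjection p ∧ ∀ a ∈ A, p * Φ a = Φ a * p

/-- the cut down map -/
noncomputable def cut (Φ : (H →L[ℂ] H) → (K →L[ℂ] K)) (p : K →L[ℂ] K) (a : H →L[ℂ] H) :
    K →L[ℂ] K := p * Φ a * p

end

open Pool.Agent.H.MP_42dd51_an Pool.Agent.H.MP_ab5103_an in
theorem result : ∃ (X Y : Type) (_ : MetricSpace X) (_ : MetricSpace Y),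
    ULF X ∧ ULF Y ∧ PropA Y ∧
    ∃ Φ : (L2 X →L[ℂ] L2 X) → (L2 Y →L[ℂ] L2 Y), Emb (Roe X) (Roe Y) Φ ∧
      ∀ p : L2 Y →L[ℂ] L2 Y, CommProj (Roe X) (Roe Y) Φ p → Set.InjOn (cut Φ p) (Roe X) →
        ¬ RankPres (Roe X) (cut Φ p) ∧ ¬ CompactPres (Roe X) (cut Φ p) := by
  refine ⟨X, Y, inferInstance, inferInstance, fun r _ => ulf_of ballX r, fun r _ => ulf_of ballY r,
    ?_, ?_⟩
  · intro R ε hR hε
    obtain ⟨ρ, h1, h2⟩ := propA R hR
    refine ⟨R, hR, fun y => lp.single 1 (ρ y) (1 : ℝ), fun x w => ?_, fun x => ?_, fun x w h => ?_,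
      fun x y h => ?_⟩
    · by_cases h : w = ρ x
      · subst h; simp
      · rw [lp.single_apply_ne _ _ _ h]
    · rw [lp.norm_single (by norm_num)]; simp
    · by_cases h' : w = ρ x
      · rw [h']; exact h1 x
      · exact (h (lp.single_apply_ne _ _ _ h')).elim
    · simp only [h2 x y h, sub_self, norm_zero]; exact hε.le
  · obtain ⟨U, hU⟩ := exists_U σ hσ z hz
    have h2 := hU.star_mul hσ hz
    have hm : ∀ x x' : X, mu x x' ∈ Roe X := fun x x' => subset_closure (mu_mem x x')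
    refine ⟨Phi (X := X) (F := Finset ℕ) U, ⟨?_, (Phi_inj h2).injOn,
      fun a _ b _ c => ⟨Phi_add U a b, Phi_smul U c a, Phi_mul h2 a b, Phi_star U a⟩⟩,
      fun p hp hi => ?_⟩
    · exact Phi_closure (X := X) (F := Finset ℕ) (FPs X dist)
        (FPs (X × Finset ℕ) (fun y y' => (dY y y' : ℝ))) (fun a ha => by
          obtain ⟨r, hr⟩ := ha
          exact approx (X := X) hσ hz hU ballX _ hd a r hr)
    · obtain ⟨hp1, hp2, hp3⟩ := hp
      have key := core hU p hp1 hp2.isIdempotentElem (fun x x' => hp3 _ (hm x x'))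
        (fun h => by
          have h0 : p = 0 := h
          have h1 : (0 : L2 X →L[ℂ] L2 X) ∈ Roe X := subset_closure ⟨0, fun _ _ _ => rfl⟩
          have h3 : mu (X := X) (0 : ℕ) (0 : ℕ) = 0 := hi (hm _ _) h1 (by simp [cut, h0])
          have h4 := ent_mu (X := X) (0 : ℕ) (0 : ℕ) (0 : ℕ) (0 : ℕ)
          rw [h3, if_pos ⟨rfl, rfl⟩] at h4
          exact zero_ne_one h4) 0
      exact ⟨fun h => key (compact_of_rank _ (h _ (hm (0 : ℕ) (0 : ℕ)) ⟨mu_proj _, mu_rank _⟩).2),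
        fun h => key (h _ (hm (0 : ℕ) (0 : ℕ)) (compact_of_rank _ (mu_rank _)))⟩

end Pool.Agent.Results.MP_ab5103_an.No
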